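import Pool.Agent.N236.UB.Stm

/-!
# Project UB (helper236): the degree of the Dickson polynomials

Written by helper615.
-/

set_option autoImplicit false

open Polynomial

namespace Pool.Agent.N615.UB

open Pool.Agent.N236.UB

lemma deg_step {K : Type} [Field K] (α : K) {A B : K[X]} {m : ℕ} (hA : A.Monic)
    (hd : A.natDegree = m + 1) (hB : B.natDegree ≤ m) :
    (X * A - C α * B).Monic ∧ (X * A - C α * B).natDegree = m + 2 := by
  have h1 : (X * A).Monic := monic_X.mul hA
  have h2 : (X * A).natDegree = m + 2 := by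
    rw [natDegree_X_mul hA.ne_zero, hd]
  have h3 : (C α * B).natDegree < (X * A).natDegree := by
    rw [h2]
    exact (natDegree_C_mul_le α B).trans_lt (by omega)
  refine ⟨h1.sub_of_left (degree_lt_degree h3), ?_⟩
  rw [natDegree_sub_eq_left_of_natDegree_lt h3, h2]

theorem t_deg : S_DEG := by
  intro K _ α l hl
  have key : ∀ n : ℕ, ((dickson 1 α (n + 1)).Monic ∧ (dickson 1 α (n + 1)).natDegree = n + 1) ∧
      ((dickson 1 α (n + 2)).Monic ∧ (dickson 1 α (n + 2)).natDegree = n + 2) := by
    intro n
    induction n with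
    | zero =>
      have h1 : (dickson 1 α (0 + 1)).Monic ∧ (dickson 1 α (0 + 1)).natDegree = 0 + 1 := by
        rw [zero_add, dickson_one]
        exact ⟨monic_X, natDegree_X⟩
      refine ⟨h1, ?_⟩
      rw [dickson_add_two]
      refine deg_step α h1.1 h1.2 ?_
      rw [dickson_zero]
      have e : (3 - ((1 : ℕ) : K[X])) = C (3 - 1 : K) := by
        have h3 : (3 : K[X]) = C (3 : K) := (map_ofNat C 3).symm
        rw [h3, C_sub, Nat.cast_one, C_1]
      rw [e]
      exact (natDegree_C _).le
    | succ n ih =>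
      refine ⟨ih.2, ?_⟩
      rw [dickson_add_two]
      exact deg_step α ih.2.1 ih.2.2 ih.1.2.le
  obtain ⟨n, rfl⟩ := Nat.exists_eq_add_of_le' hl
  exact (key n).1.2

end Pool.Agent.N615.UB
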