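import Pool.Agent.N236.UB.Stm

/-!
# Project UB (helper236): integral matrices with unit determinant modulo the maximal ideal

Written by helper615.
-/

set_option autoImplicit false

open Polynomial

namespace Pool.Agent.N615.UB

open Pool.Agent.N236.UB

theorem t_gl : S_GL := by
  classical
  intro L _ v p q e hv
  obtain ⟨-, -, -, O, k, _, _, red, hO, hred, -, hq⟩ := hv
  constructor
  · intro A hA hdet
    obtain ⟨AO, hAO⟩ : ∃ AO : Matrix (Fin 2) (Fin 2) O, O.subtype.mapMatrix AO = A :=
      ⟨Matrix.of fun a b => ⟨A a b, (hO _).2 (hA a b)⟩, by ext a b; rfl⟩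
    obtain ⟨R, hR⟩ : ∃ R, R = red.mapMatrix AO := ⟨_, rfl⟩
    have h1 : ((AO.det : O) : L) = A.det := by
      rw [← hAO]
      exact RingHom.map_det O.subtype AO
    have h2 : R.det ≠ 0 := by
      rw [hR, ← RingHom.map_det]
      intro h
      have h3 := (hred _).1 h
      rw [h1, hdet] at h3
      exact lt_irrefl _ h3
    have h3 : Nat.card (Matrix.GeneralLinearGroup (Fin 2) k) = gl q := by
      rw [Matrix.card_GL_field, Fin.prod_univ_two, hq]
      simp [gl]
    have h4 : R ^ gl q = 1 := by
      have hu : IsUnit R := (Matrix.isUnit_iff_isUnit_det R).2 (isUnit_iff_ne_zero.2 h2)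
      obtain ⟨U, hU⟩ := hu
      have h5 : U ^ gl q = 1 := by
        rw [← h3]
        exact pow_card_eq_one'
      rw [← hU, ← Units.val_pow_eq_pow_val, h5, Units.val_one]
    intro a b
    have h5 : red ((AO ^ gl q - 1) a b) = 0 := by
      have h6 : red.mapMatrix (AO ^ gl q - 1) = 0 := by
        rw [map_sub, map_pow, ← hR, h4, map_one, sub_self]
      exact congrFun (congrFun h6 a) b
    have h6 := (hred _).1 h5
    have h7 : (((AO ^ gl q - 1) a b : O) : L) = (A ^ gl q - 1) a b := by
      have h8 : O.subtype.mapMatrix (AO ^ gl q - 1) = A ^ gl q - 1 := by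
        rw [map_sub, map_pow, hAO, map_one]
      rw [← h8]
      rfl
    rw [h7] at h6
    exact h6
  · intro x hx
    obtain ⟨y, hy⟩ : ∃ y : O, (y : L) = x := ⟨⟨x, (hO x).2 hx.le⟩, rfl⟩
    have h1 : red y ≠ 0 := by
      intro h
      have h2 := (hred y).1 h
      rw [hy, hx] at h2
      exact lt_irrefl _ h2
    have h2 : red y ^ (q - 1) = 1 := by
      rw [← hq]
      exact FiniteField.pow_card_sub_one_eq_one _ h1
    have h3 : q - 1 ∣ gl q := by
      unfold gl
      refine Dvd.dvd.mul_left ⟨q, ?_⟩ _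
      rw [Nat.sub_mul, one_mul, pow_two]
    have h4 : red (y ^ gl q - 1) = 0 := by
      obtain ⟨c, hc⟩ := h3
      rw [map_sub, map_pow, map_one, hc, pow_mul, h2, one_pow, sub_self]
    have h5 := (hred _).1 h4
    have h6 : ((y ^ gl q - 1 : O) : L) = x ^ gl q - 1 := by
      rw [← hy]
      rfl
    rw [h6] at h5
    exact h5

end Pool.Agent.N615.UB
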